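import Pool.Graph.R_pool_sql_team_seeded_47a924f7.Results.MP_3c53dc_co.TransposeFails

/-!
# Realizability by curves, transposition and direct sums

A direct sum of two 0-1 matrices is realizable by curves if and only if both summands are.  Since
there is one matrix that is realizable while its transpose is not (an earlier run, size
`13 × 17`), every realizable matrix is a direct summand of a realizable matrix whose transpose is not
realizable, and there are such matrices of all sizes `m × n` with `m ≥ 13` and `n ≥ 17`.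
-/

set_option autoImplicit false

namespace Pool.Agent.Results.MP_3c53dc_co.DirectSums

open Pool.Agent.T6.H80.MT Set Metric

/-- the direct sum (block diagonal matrix) of two 0-1 matrices -/
def dsum {m n m' n' : ℕ} (A : Matrix (Fin m) (Fin n) Bool) (B : Matrix (Fin m') (Fin n') Bool) :
    Matrix (Fin (m + m')) (Fin (n + n')) Bool :=
  fun i j => Fin.addCases (fun i => Fin.addCases (fun j => A i j) (fun _ => false) j)
    (fun i => Fin.addCases (fun _ => false) (fun j => B i j) j) i

section

variable {m n m' n' : ℕ} (A : Matrix (Fin m) (Fin n) Bool) (B : Matrix (Fin m') (Fin n') Bool)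

@[simp] theorem dsum_ll (i : Fin m) (j : Fin n) :
    dsum A B (Fin.castAdd m' i) (Fin.castAdd n' j) = A i j := by simp [dsum]

@[simp] theorem dsum_lr (i : Fin m) (j : Fin n') :
    dsum A B (Fin.castAdd m' i) (Fin.natAdd n j) = false := by simp [dsum]

@[simp] theorem dsum_rl (i : Fin m') (j : Fin n) :
    dsum A B (Fin.natAdd m i) (Fin.castAdd n' j) = false := by simp [dsum]

@[simp] theorem dsum_rr (i : Fin m') (j : Fin n') :
    dsum A B (Fin.natAdd m i) (Fin.natAdd n j) = B i j := by simp [dsum]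

theorem transpose_dsum : (dsum A B).transpose = dsum A.transpose B.transpose := by
  ext i j
  rw [Matrix.transpose_apply]
  refine Fin.addCases (fun i => ?_) (fun i => ?_) i <;>
    refine Fin.addCases (fun j => ?_) (fun j => ?_) j <;> simp

end

/-- realizability passes to submatrices -/
theorem real_sub {m n m' n' : ℕ} {M : Matrix (Fin m) (Fin n) Bool} (h : RealizableByCurves M)
    (f : Fin m' → Fin m) (g : Fin n' → Fin n) (hf : Function.Injective f)
    (hg : Function.Injective g) : RealizableByCurves (M.submatrix f g) := by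
  obtain ⟨p, c, h1, h2, h3, h4⟩ := h
  exact ⟨p ∘ g, c ∘ f, h1.comp hg, fun i => h2 _, fun i j => h3 _ _,
    fun i i' hne => h4 _ _ fun h => hne (hf h)⟩

theorem curve_compact {C : Set (ℝ × ℝ)} (h : IsCurve C) : IsCompact C := by
  obtain ⟨f, h1, -, rfl⟩ := h
  exact isCompact_range h1

theorem curve_translate {C : Set (ℝ × ℝ)} (h : IsCurve C) (v : ℝ × ℝ) :
    IsCurve ((fun x => x + v) '' C) := by
  obtain ⟨f, h1, h2, rfl⟩ := h
  exact ⟨fun t => f t + v, h1.add continuous_const, fun s t hst => h2 (add_right_cancel hst),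
    by rw [← range_comp]; rfl⟩

theorem exists_radius {m n : ℕ} (p : Fin n → ℝ × ℝ) (c : Fin m → Set (ℝ × ℝ))
    (hc : ∀ i, IsCurve (c i)) : ∃ R : ℝ, (∀ j, ‖p j‖ < R) ∧ ∀ i, ∀ x ∈ c i, ‖x‖ < R := by
  have h1 : Bornology.IsBounded ((⋃ i, c i) ∪ range p) :=
    (Bornology.isBounded_iUnion.2 fun i => (curve_compact (hc i)).isBounded).union
      (finite_range p).isBounded
  obtain ⟨R, hR⟩ := h1.subset_ball 0
  refine ⟨R, fun j => ?_, fun i x hx => ?_⟩
  · have := hR (Or.inr (mem_range_self j))
    rwa [mem_ball_zero_iff] at this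
  · have := hR (Or.inl (mem_iUnion.2 ⟨i, hx⟩))
    rwa [mem_ball_zero_iff] at this

/-- a direct sum of realizable matrices is realizable -/
theorem real_dsum {m n m' n' : ℕ} {A : Matrix (Fin m) (Fin n) Bool}
    {B : Matrix (Fin m') (Fin n') Bool} (hA : RealizableByCurves A) (hB : RealizableByCurves B) :
    RealizableByCurves (dsum A B) := by
  obtain ⟨p, c, h1, h2, h3, h4⟩ := hA
  obtain ⟨q, d, k1, k2, k3, k4⟩ := hB
  obtain ⟨R₁, r1, r2⟩ := exists_radius p c h2
  obtain ⟨R₂, r3, r4⟩ := exists_radius q d k2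
  obtain ⟨v, hv⟩ : ∃ v : ℝ × ℝ, v = (|R₁| + |R₂|, 0) := ⟨_, rfl⟩
  have hvn : ‖v‖ = |R₁| + |R₂| := by
    rw [hv, Prod.norm_def]
    simp [abs_of_nonneg (add_nonneg (abs_nonneg R₁) (abs_nonneg R₂))]
    positivity
  -- points near the first picture and near the second picture are different
  have key : ∀ x y : ℝ × ℝ, ‖x‖ < R₁ → ‖y‖ < R₂ → x ≠ y + v := by
    intro x y hx hy h
    have e : v = x - y := by rw [h]; abel
    have : ‖v‖ ≤ ‖x‖ + ‖y‖ := by rw [e]; exact norm_sub_le x y
    have h5 := le_abs_self R₁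
    have h6 := le_abs_self R₂
    rw [hvn] at this
    linarith
  obtain ⟨P, hP1, hP2⟩ : ∃ P : Fin (n + n') → ℝ × ℝ, (∀ j, P (Fin.castAdd n' j) = p j) ∧
      ∀ j, P (Fin.natAdd n j) = q j + v :=
    ⟨fun j => Fin.addCases (motive := fun _ => ℝ × ℝ) p (fun j => q j + v) j,
      fun j => Fin.addCases_left j, fun j => Fin.addCases_right j⟩
  obtain ⟨C, hC1, hC2⟩ : ∃ C : Fin (m + m') → Set (ℝ × ℝ), (∀ i, C (Fin.castAdd m' i) = c i) ∧
      ∀ i, C (Fin.natAdd m i) = (fun x => x + v) '' d i :=
    ⟨fun i => Fin.addCases (motive := fun _ => Set (ℝ × ℝ)) c (fun i => (fun x => x + v) '' d i) i,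
      fun i => Fin.addCases_left i, fun i => Fin.addCases_right i⟩
  refine ⟨P, C, ?_, ?_, ?_, ?_⟩
  · intro j j'
    refine Fin.addCases (fun j => ?_) (fun j => ?_) j <;>
      refine Fin.addCases (fun j' => ?_) (fun j' => ?_) j' <;> intro h
    · rw [hP1, hP1] at h
      rw [h1 h]
    · rw [hP1, hP2] at h
      exact absurd h (key _ _ (r1 j) (r3 j'))
    · rw [hP1, hP2] at h
      exact absurd h.symm (key _ _ (r1 j') (r3 j))
    · rw [hP2, hP2] at h
      rw [k1 (add_right_cancel h)]
  · intro i
    refine Fin.addCases (fun i => ?_) (fun i => ?_) i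
    · rw [hC1]; exact h2 i
    · rw [hC2]; exact curve_translate (k2 i) v
  · intro i j
    refine Fin.addCases (fun i => ?_) (fun i => ?_) i <;>
      refine Fin.addCases (fun j => ?_) (fun j => ?_) j
    · rw [hP1, hC1, dsum_ll]
      exact h3 i j
    · rw [hP2, hC1, dsum_lr]
      refine ⟨fun h => absurd rfl (key _ _ (r2 i _ h) (r3 j)), fun h => by simp at h⟩
    · rw [hP1, hC2, dsum_rl]
      refine ⟨fun ⟨y, hy, hy'⟩ => absurd hy'.symm (key _ _ (r1 j) (r4 i y hy)), fun h => by simp at h⟩
    · rw [hP2, hC2, dsum_rr, ← k3 i j]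
      constructor
      · rintro ⟨y, hy, hy'⟩
        have : y = q j := add_right_cancel hy'
        rwa [this] at hy
      · exact fun h => ⟨_, h, rfl⟩
  · intro i i'
    refine Fin.addCases (fun i => ?_) (fun i => ?_) i <;>
      refine Fin.addCases (fun i' => ?_) (fun i' => ?_) i' <;> intro hne
    · rw [hC1, hC1]
      exact h4 i i' fun h => hne (by rw [h])
    · rw [hC1, hC2]
      rintro x ⟨hx, y, hy, rfl⟩
      exact absurd rfl (key _ _ (r2 i _ hx) (r4 i' y hy))
    · rw [hC1, hC2]
      rintro x ⟨⟨y, hy, rfl⟩, hx⟩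
      exact absurd rfl (key _ _ (r2 i' _ hx) (r4 i y hy))
    · rw [hC2, hC2]
      have h5 := k4 i i' fun h => hne (by rw [h])
      rintro x ⟨⟨y, hy, rfl⟩, y', hy', he⟩ z ⟨⟨w, hw, rfl⟩, w', hw', he'⟩
      have e1 : y' = y := add_right_cancel he
      have e2 : w' = w := add_right_cancel he'
      subst e1 e2
      rw [h5 ⟨hy, hy'⟩ ⟨hw, hw'⟩]

/-- realizability of direct sums -/
theorem real_dsum_iff {m n m' n' : ℕ} (A : Matrix (Fin m) (Fin n) Bool)
    (B : Matrix (Fin m') (Fin n') Bool) :
    RealizableByCurves (dsum A B) ↔ RealizableByCurves A ∧ RealizableByCurves B := by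
  refine ⟨fun h => ⟨?_, ?_⟩, fun h => real_dsum h.1 h.2⟩
  · have h1 := real_sub h (Fin.castAdd m') (Fin.castAdd n') (Fin.castAdd_injective m m')
      (Fin.castAdd_injective n n')
    have e : (dsum A B).submatrix (Fin.castAdd m') (Fin.castAdd n') = A := by
      ext i j
      simp
    rwa [e] at h1
  · have h1 := real_sub h (Fin.natAdd m) (Fin.natAdd n) (Fin.natAdd_injective m' m)
      (Fin.natAdd_injective n' n)
    have e : (dsum A B).submatrix (Fin.natAdd m) (Fin.natAdd n) = B := by
      ext i j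
      simp
    rwa [e] at h1

/-- the zero matrix of any size is realizable -/
theorem real_zero (m n : ℕ) : RealizableByCurves (fun _ _ => false : Matrix (Fin m) (Fin n) Bool) := by
  let q : Fin n → ℝ × ℝ := fun j => (((j : ℕ) : ℝ), (-1 : ℝ))
  let c : Fin m → Set (ℝ × ℝ) := fun i => range fun t : unitInterval => ((t : ℝ), ((i : ℕ) : ℝ))
  refine ⟨q, c, ?_, ?_, ?_, ?_⟩
  · intro j j' h
    have h1 : ((j : ℕ) : ℝ) = ((j' : ℕ) : ℝ) := congrArg Prod.fst h
    exact Fin.ext (by exact_mod_cast h1)
  · intro i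
    refine ⟨_, ?_, ?_, rfl⟩
    · fun_prop
    · intro s t h
      exact Subtype.ext (congrArg Prod.fst h)
  · intro i j
    constructor
    · rintro ⟨t, ht⟩
      have h1 : ((i : ℕ) : ℝ) = -1 := congrArg Prod.snd ht
      have h2 : (0 : ℝ) ≤ ((i : ℕ) : ℝ) := Nat.cast_nonneg _
      linarith
    · intro h; simp at h
  · rintro i i' hne x ⟨⟨t, rfl⟩, t', ht'⟩
    have h1 : ((i' : ℕ) : ℝ) = ((i : ℕ) : ℝ) := congrArg Prod.snd ht'
    exact absurd (Fin.ext (by exact_mod_cast h1.symm)) hne

/-- **Main theorem.**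
(1) A direct sum of 0-1 matrices is realizable by curves iff both summands are; hence a direct sum
is realizable with non-realizable transpose iff both summands are realizable and the transpose of
one of them is not.
(2) Every matrix that is realizable by curves is a direct summand of a matrix, with `13` more rows
and `17` more columns, that is realizable by curves while its transpose is not.
(3) For all `m ≥ 13` and `n ≥ 17` there is an `m × n` matrix that is realizable by curves while its
transpose is not. -/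
theorem result :
    (∀ (m n m' n' : ℕ) (A : Matrix (Fin m) (Fin n) Bool) (B : Matrix (Fin m') (Fin n') Bool),
      (RealizableByCurves (dsum A B) ↔ RealizableByCurves A ∧ RealizableByCurves B) ∧
      ((RealizableByCurves (dsum A B) ∧ ¬ RealizableByCurves (dsum A B).transpose) ↔
        RealizableByCurves A ∧ RealizableByCurves B ∧
          (¬ RealizableByCurves A.transpose ∨ ¬ RealizableByCurves B.transpose))) ∧
    (∀ (m n : ℕ) (B : Matrix (Fin m) (Fin n) Bool), RealizableByCurves B →
      ∃ A : Matrix (Fin 13) (Fin 17) Bool, RealizableByCurves (dsum A B) ∧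
        ¬ RealizableByCurves (dsum A B).transpose) ∧
    ∀ m n : ℕ, 13 ≤ m → 17 ≤ n → ∃ A : Matrix (Fin m) (Fin n) Bool, RealizableByCurves A ∧
      ¬ RealizableByCurves A.transpose := by
  have key : ∀ (m n m' n' : ℕ) (A : Matrix (Fin m) (Fin n) Bool)
      (B : Matrix (Fin m') (Fin n') Bool),
      ((RealizableByCurves (dsum A B) ∧ ¬ RealizableByCurves (dsum A B).transpose) ↔
        RealizableByCurves A ∧ RealizableByCurves B ∧
          (¬ RealizableByCurves A.transpose ∨ ¬ RealizableByCurves B.transpose)) := by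
    intro m n m' n' A B
    rw [transpose_dsum, real_dsum_iff, real_dsum_iff]
    tauto
  obtain ⟨A, hA, hA'⟩ := TransposeFails.result
  refine ⟨fun m n m' n' A B => ⟨real_dsum_iff A B, key _ _ _ _ A B⟩, fun m n B hB => ⟨A, ?_⟩, ?_⟩
  · exact (key _ _ _ _ A B).2 ⟨hA, hB, Or.inl hA'⟩
  · intro m n hm hn
    obtain ⟨m', rfl⟩ := Nat.exists_eq_add_of_le hm
    obtain ⟨n', rfl⟩ := Nat.exists_eq_add_of_le hn
    exact ⟨_, (key _ _ _ _ A _).2 ⟨hA, real_zero m' n', Or.inl hA'⟩⟩

end Pool.Agent.Results.MP_3c53dc_co.DirectSums
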